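import Pool.Agent.Lib_helper61.TD.BalB

/-!
# Semi-invariant multilinear forms at `ℓ` are balanced
-/

set_option autoImplicit false
set_option linter.unusedSectionVars false

namespace Pool.Agent.TDG

open Matrix Filter Topology NumberField Polynomial Pool.Agent.TBL
open Pool.Agent.NF (MM gact PA LS lgs Small small_zpow lg_zpow lg_mul lg_det lg_prod lg_pow
  small_prod small_mul norm_sq_le_one small_pow Big LS_mono lgs_mem)
open Pool.Agent.TT (Qbar)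
open Pool.Agent.TB (fb_dense np_charpoly cycC cycC_mul cycC_one cycC_frob cycC_continuous
  cycC_ne_zero)
open Pool.Agent.TE (CompatC natCast_ne natCast_lt)

/-- The cyclotomic character as a homomorphism. -/
noncomputable def cycM (K : Type) [Field K] [Algebra K Qbar] (ℓ : ℕ) [Fact ℓ.Prime] :
    (Qbar ≃ₐ[K] Qbar) →* ℂ_[ℓ] where
  toFun := cycC ℓ
  map_one' := cycC_one
  map_mul' := cycC_mul

section Values

variable {K : Type} [Field K] [NumberField K] [Algebra K Qbar] {E : Type} [Field E]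
  [IsAlgClosed E] {p ℓ : ℕ} [Fact p.Prime] [Fact ℓ.Prime] (ip : E →+* ℂ_[p]) (il : E →+* ℂ_[ℓ])

theorem Arep_trace {k : Type*} [Field k] {κ : Type*} [DecidableEq κ] {D : κ → ℕ} {m : ℕ}
    (j : Fin m → κ) {G : Type*} [Group G] (N : κ → ℤ) (c : ℤ)
    (ρ : ∀ a, G →* Matrix (Fin (D a)) (Fin (D a)) k) (χ : G →* k) (ε : Fin m → Bool) (g : G) :
    (Arep j N c ρ χ ε g).trace = χ g ^ (-c) *
      ∏ i, (if ε i then (ρ (j i) g).trace else χ g ^ (-N (j i)) * (ρ (j i) g⁻¹).trace) := by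
  rw [Arep_apply, Matrix.trace_smul, kmat_trace, smul_eq_mul]
  congr 1
  refine Finset.prod_congr rfl fun i _ => ?_
  rcases hε : ε i with _ | _
  · simp only [Bmat, Bool.false_eq_true, if_false]
    rw [Matrix.trace_smul, Matrix.trace_transpose, smul_eq_mul]
  · simp only [Bmat, if_true]

theorem Arep_values {κ : Type} [DecidableEq κ] {D : κ → ℕ} {m : ℕ}
    (ρ : ∀ a, (Qbar ≃ₐ[K] Qbar) →* Matrix (Fin (D a)) (Fin (D a)) ℂ_[p])
    (π : ∀ a, (Qbar ≃ₐ[K] Qbar) →* Matrix (Fin (D a)) (Fin (D a)) ℂ_[ℓ])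
    (hc : CompatC ip il ρ π) (N : κ → ℤ) (j : Fin m → κ) (c : ℤ) (ε : Fin m → Bool) :
    ∃ B : Finset ℕ, ∀ q : ℕ, q.Prime → q ∉ B → ∀ 𝔓 : Ideal (𝓞 Qbar), 𝔓.IsPrime →
      (q : 𝓞 Qbar) ∈ 𝔓 → ∀ σ : Qbar ≃ₐ[K] Qbar,
        (∀ x y : 𝓞 Qbar, (y : Qbar) = σ x → y - x ^ q ∈ 𝔓) →
          ∀ r : ℕ, ∃ t : E, (Arep j N c ρ (cycM K p) ε (σ⁻¹ ^ r)).trace = ip t ∧
            (Arep j N c π (cycM K ℓ) ε (σ⁻¹ ^ r)).trace = il t := by
  obtain ⟨B, hB⟩ := hc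
  refine ⟨B ∪ {p, ℓ}, ?_⟩
  intro q hq hqB Q hQ hqQ σ hσ r
  rw [Finset.mem_union, not_or, Finset.mem_insert, Finset.mem_singleton, not_or] at hqB
  obtain ⟨hqB, hqp, hql⟩ := hqB
  -- the cyclotomic character
  have hχp : ∀ e : ℤ, cycM K p (σ⁻¹ ^ r) ^ e = ip (((q : E)⁻¹ ^ r) ^ e) := by
    intro e
    have h1 := cycC_mul (p := p) σ σ⁻¹
    rw [mul_inv_cancel, cycC_one, cycC_frob hq (Ne.symm hqp) hQ hqQ hσ] at h1
    have h2 : cycM K p σ⁻¹ = ip (q : E)⁻¹ := by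
      change cycC p σ⁻¹ = _
      rw [map_inv₀, map_natCast]
      exact eq_inv_of_mul_eq_one_right h1.symm
    rw [map_pow, h2, map_zpow₀, map_pow]
  have hχl : ∀ e : ℤ, cycM K ℓ (σ⁻¹ ^ r) ^ e = il (((q : E)⁻¹ ^ r) ^ e) := by
    intro e
    have h1 := cycC_mul (p := ℓ) σ σ⁻¹
    rw [mul_inv_cancel, cycC_one, cycC_frob hq (Ne.symm hql) hQ hqQ hσ] at h1
    have h2 : cycM K ℓ σ⁻¹ = il (q : E)⁻¹ := by
      change cycC ℓ σ⁻¹ = _
      rw [map_inv₀, map_natCast]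
      exact eq_inv_of_mul_eq_one_right h1.symm
    rw [map_pow, h2, map_zpow₀, map_pow]
  -- the traces
  have h1 : ∀ a, ∃ t : E, (ρ a (σ⁻¹ ^ r)).trace = ip t ∧ (π a (σ⁻¹ ^ r)).trace = il t := by
    intro a
    rw [map_pow, map_pow]
    exact tr_values ip il _ _ (hB q hq hqB Q hQ hqQ σ hσ a) r
  have h2 : ∀ a, ∃ t : E, (ρ a (σ⁻¹ ^ r)⁻¹).trace = ip t ∧
      (π a (σ⁻¹ ^ r)⁻¹).trace = il t := by
    intro a
    have h3 : (σ⁻¹ ^ r)⁻¹ = σ ^ r := by rw [inv_pow, inv_inv]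
    rw [h3, map_pow, map_pow]
    refine tr_values ip il _ _ (inv_values ip il _ _ _ _ ?_ ?_ (hB q hq hqB Q hQ hqQ σ hσ a)) r
    · rw [← map_mul, inv_mul_cancel, map_one]
    · rw [← map_mul, inv_mul_cancel, map_one]
  choose t₁ ht₁ ht₁' using h1
  choose t₂ ht₂ ht₂' using h2
  refine ⟨((q : E)⁻¹ ^ r) ^ (-c) *
    ∏ i, (if ε i then t₁ (j i) else ((q : E)⁻¹ ^ r) ^ (-N (j i)) * t₂ (j i)), ?_, ?_⟩
  · rw [Arep_trace, map_mul, map_prod, hχp]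
    congr 1
    refine Finset.prod_congr rfl fun i _ => ?_
    split_ifs
    · exact ht₁ _
    · rw [map_mul, hχp, ht₂]
  · rw [Arep_trace, map_mul, map_prod, hχl]
    congr 1
    refine Finset.prod_congr rfl fun i _ => ?_
    split_ifs
    · exact ht₁' _
    · rw [map_mul, hχl, ht₂']

end Values

theorem kmat_continuous {k : Type*} [Field k] [TopologicalSpace k] [IsTopologicalRing k]
    {ι : Type*} [Fintype ι] [DecidableEq ι] {n : ι → Type*} [∀ i, Fintype (n i)]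
    [∀ i, DecidableEq (n i)] {X : Type*} [TopologicalSpace X] (B : ∀ i, X → Matrix (n i) (n i) k)
    (hB : ∀ i, Continuous (B i)) : Continuous fun x => kmat fun i => B i x := by
  refine continuous_pi fun I => continuous_pi fun J => ?_
  change Continuous fun x => ∏ i, B i x (I i) (J i)
  exact continuous_finsetProd _ fun i _ => (hB i).matrix_elem _ _

theorem Arep_continuous {k : Type*} [NontriviallyNormedField k] {κ : Type*} [DecidableEq κ]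
    {D : κ → ℕ} {m : ℕ} (j : Fin m → κ) {G : Type*} [Group G] [TopologicalSpace G]
    [IsTopologicalGroup G] (N : κ → ℤ) (c : ℤ) (ρ : ∀ a, G →* Matrix (Fin (D a)) (Fin (D a)) k)
    (χ : G →* k) (hρ : ∀ a, Continuous (ρ a)) (hχ : Continuous χ) (hχ0 : ∀ g, χ g ≠ 0)
    (ε : Fin m → Bool) : Continuous (Arep j N c ρ χ ε) := by
  have h1 : (Arep j N c ρ χ ε : G → _) = fun g => χ g ^ (-c) •
      kmat fun i => Bmat (ε i) (N (j i)) (ρ (j i) g) (ρ (j i) g⁻¹) (χ g) := by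
    funext g
    exact Arep_apply j N c ρ χ ε g
  rw [h1]
  have hz : ∀ e : ℤ, Continuous fun g => χ g ^ e := fun e =>
    hχ.zpow₀ e fun g => Or.inl (hχ0 g)
  refine (hz (-c)).smul (kmat_continuous _ fun i => ?_)
  rcases hε : ε i with _ | _
  · simp only [Bmat, Bool.false_eq_true, if_false]
    exact (hz _).smul ((hρ _).comp continuous_inv).matrix_transpose
  · simp only [Bmat, if_true]
    exact hρ _

section Main

variable {K : Type} [Field K] [NumberField K] [Algebra K Qbar] {E : Type} [Field E]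
  [IsAlgClosed E] {p ℓ : ℕ} [Fact p.Prime] [Fact ℓ.Prime] (ip : E →+* ℂ_[p]) (il : E →+* ℂ_[ℓ])
  {κ : Type} [Fintype κ] [DecidableEq κ] {D : κ → ℕ}

attribute [local instance] matRing matAlg matUltra matComplete

/-- The relations between the determinants that a nonzero form of the sign type `ε` implies. -/
theorem relations (hD : ∀ a, 0 < D a)
    (ρ : ∀ a, (Qbar ≃ₐ[K] Qbar) →* Matrix (Fin (D a)) (Fin (D a)) ℂ_[p])
    (hρ : ∀ a, Continuous (ρ a)) (hb : Big p ρ) (m : ℕ) (N : κ → ℤ) (j : Fin m → κ) (c : ℤ)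
    (hc : 2 * c = -∑ i, N (j i)) (ε : Fin m → Bool) (H : Subgroup (Qbar ≃ₐ[K] Qbar))
    (hH : IsOpen (H : Set (Qbar ≃ₐ[K] Qbar)))
    (hdet : ∀ h ∈ H, (Arep j N c ρ (cycM K p) ε h - 1).det = 0) :
    ∃ (H' : Subgroup (Qbar ≃ₐ[K] Qbar)) (T : κ → ℤ), IsOpen (H' : Set (Qbar ≃ₐ[K] Qbar)) ∧
      (∀ a, Sa j ε a = T a * D a) ∧
      ∀ h ∈ H', ∏ a, ((ρ a h).det ^ 2 * cycC p h ^ (N a * D a)) ^ T a = 1 := by
  have hgal := Pool.Agent.TE.isGalois_Qbar (K := K)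
  have hp0 : (p : ℂ_[p]) ≠ 0 := natCast_ne p
  have hp : ‖(p : ℂ_[p])‖ < 1 := natCast_lt p
  have hχ : Continuous (cycM K p) := cycC_continuous
  have hq : 0 < ‖(p : ℂ_[p])‖ ^ 2 := by
    have : 0 < ‖(p : ℂ_[p])‖ := norm_pos_iff.2 hp0
    positivity
  have hU : {g : Qbar ≃ₐ[K] Qbar | Small ρ (cycM K p) p g ∧
      ∀ a, ‖(ρ a g).det - 1‖ ≤ ‖(p : ℂ_[p])‖ ^ 2} ∈ 𝓝 (1 : Qbar ≃ₐ[K] Qbar) := by
    have h1 : ∀ a, {g : Qbar ≃ₐ[K] Qbar | ‖ρ a g - 1‖ ≤ ‖(p : ℂ_[p])‖ ^ 2} ∈ 𝓝 1 := by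
      intro a
      have hc : Continuous fun g => ‖ρ a g - 1‖ := ((hρ a).sub continuous_const).norm
      have h2 : {g : Qbar ≃ₐ[K] Qbar | ‖ρ a g - 1‖ < ‖(p : ℂ_[p])‖ ^ 2} ∈ 𝓝 1 := by
        apply (isOpen_lt hc continuous_const).mem_nhds
        show ‖ρ a 1 - 1‖ < _
        rw [map_one, sub_self, norm_zero]; exact hq
      filter_upwards [h2] with g hg using hg.le
    have h3 : ∀ a, {g : Qbar ≃ₐ[K] Qbar | ‖(ρ a g).det - 1‖ ≤ ‖(p : ℂ_[p])‖ ^ 2} ∈ 𝓝 1 := by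
      intro a
      have hc : Continuous fun g => ‖(ρ a g).det - 1‖ :=
        ((hρ a).matrix_det.sub continuous_const).norm
      have h2 : {g : Qbar ≃ₐ[K] Qbar | ‖(ρ a g).det - 1‖ < ‖(p : ℂ_[p])‖ ^ 2} ∈ 𝓝 1 := by
        apply (isOpen_lt hc continuous_const).mem_nhds
        show ‖(ρ a 1).det - 1‖ < _
        rw [map_one, Matrix.det_one, sub_self, norm_zero]; exact hq
      filter_upwards [h2] with g hg using hg.le
    have h4 : {g : Qbar ≃ₐ[K] Qbar | ‖cycM K p g - 1‖ ≤ ‖(p : ℂ_[p])‖ ^ 2} ∈ 𝓝 1 := by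
      have hc : Continuous fun g => ‖cycM K p g - 1‖ := (hχ.sub continuous_const).norm
      have h2 : {g : Qbar ≃ₐ[K] Qbar | ‖cycM K p g - 1‖ < ‖(p : ℂ_[p])‖ ^ 2} ∈ 𝓝 1 := by
        apply (isOpen_lt hc continuous_const).mem_nhds
        show ‖cycM K p 1 - 1‖ < _
        rw [map_one, sub_self, norm_zero]; exact hq
      filter_upwards [h2] with g hg using hg.le
    filter_upwards [eventually_all.mpr h1, eventually_all.mpr h3, h4] with g hg1 hg2 hg3 using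
      ⟨⟨hg1, hg3⟩, hg2⟩
  obtain ⟨V, hVU, hVo, hV1⟩ := mem_nhds_iff.mp hU
  obtain ⟨H₁, hH₁⟩ := ProfiniteGrp.exist_openNormalSubgroup_sub_open_nhds_of_one
    (hH.inter hVo) ⟨H.one_mem, hV1⟩
  let H' : Subgroup (Qbar ≃ₐ[K] Qbar) := H₁.toSubgroup
  have hHo : IsOpen (H' : Set (Qbar ≃ₐ[K] Qbar)) := H₁.isOpen'
  have hHH : ∀ h ∈ H', h ∈ H := fun h hh => (hH₁ hh).1
  have hHs : ∀ h ∈ H', Small ρ (cycM K p) p h ∧ ∀ a, ‖(ρ a h).det - 1‖ ≤ ‖(p : ℂ_[p])‖ ^ 2 :=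
    fun h hh => hVU (hH₁ hh).2
  let L := LS ρ (cycM K p) p H'
  have hL : ∀ z ∈ L, (Lz j N c ε z).det = 0 := by
    intro z hz
    refine det_span (Arep j N c ρ (cycM K p) ε) H' hp0 hp (fun h hh => hdet h (hHH h hh))
      (S := {x | ∃ h ∈ H', x = Lz j N c ε (lgs ρ (cycM K p) p h)}) ?_ ?_
    · rintro x ⟨h, hh, rfl⟩
      exact Lz_lim j N c ε ρ (cycM K p) hp0 hp H' (fun h hh => (hHs h hh).1) h hh
    · have h1 : L ≤ (Submodule.span ℂ_[p] {x | ∃ h ∈ H', x = Lz j N c ε (lgs ρ (cycM K p) p h)}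
          ).comap (Lz j N c ε) := by
        refine Submodule.span_le.mpr ?_
        rintro x ⟨h, hh, -, rfl⟩
        exact Submodule.subset_span ⟨h, hh, rfl⟩
      exact h1 hz
  obtain ⟨I, hI⟩ := exists_weight j N c ε L hL
  obtain ⟨T, hT1, hT2⟩ := weight_rel j hD N c hc ε L
    (fun z hz => hb.LS hp0 hp hρ hχ H' hHo z hz) I hI
  refine ⟨H', T, hHo, hT1, ?_⟩
  intro h hh
  obtain ⟨hs, hd⟩ := hHs h hh
  have h1 := hT2 _ (lgs_mem ρ (cycM K p) p H' hh hs)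
  have hsm : ∀ a, ‖(ρ a h).det ^ 2 * cycM K p h ^ (N a * D a) - 1‖ ≤ ‖(p : ℂ_[p])‖ ^ 2 :=
    fun a => small_mul (norm_sq_le_one hp) (small_pow hp (hd a) 2) (small_zpow hp hs.2 _)
  have hsm2 : ∀ a ∈ Finset.univ, ‖((ρ a h).det ^ 2 * cycM K p h ^ (N a * D a)) ^ T a - 1‖ ≤
      ‖(p : ℂ_[p])‖ ^ 2 := fun a _ => small_zpow hp (hsm a) _
  have h2 : lg ℂ_[p] p (∏ a, ((ρ a h).det ^ 2 * cycM K p h ^ (N a * D a)) ^ T a) = 0 := by
    rw [lg_prod hp0 hp Finset.univ _ hsm2, ← h1]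
    refine Finset.sum_congr rfl fun a _ => ?_
    rw [lg_zpow hp0 hp (hsm a), lg_mul hp0 hp (Commute.all _ _) (small_pow hp (hd a) 2)
      (small_zpow hp hs.2 _), lg_pow hp0 hp (hd a) 2, lg_zpow hp0 hp hs.2,
      lg_det hp0 hp (hs.1 a) (hd a)]
    push_cast
    rfl
  exact eq_one_of_lg hp0 hp (small_prod hp Finset.univ _ hsm2) h2

/-- **Semi-invariant multilinear forms at `ℓ` are invariant under the torus** (with the bound by
the numbers of slots). -/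
theorem balanced_lc (hD : ∀ a, 0 < D a)
    (ρ : ∀ a, (Qbar ≃ₐ[K] Qbar) →* Matrix (Fin (D a)) (Fin (D a)) ℂ_[p])
    (hρ : ∀ a, Continuous (ρ a))
    (π : ∀ a, (Qbar ≃ₐ[K] Qbar) →* Matrix (Fin (D a)) (Fin (D a)) ℂ_[ℓ])
    (hb : Big p ρ) (hcomp : CompatC ip il ρ π) (m : ℕ) (N : κ → ℤ) (j : Fin m → κ) (c : ℤ)
    (hc : 2 * c = -∑ i, N (j i))
    (hind : ∀ H : Subgroup (Qbar ≃ₐ[K] Qbar), IsOpen (H : Set (Qbar ≃ₐ[K] Qbar)) →
      ∀ t : κ → ℤ, (∀ a, |t a| * D a ≤ (Finset.univ.filter fun i => j i = a).card) →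
      (∀ h ∈ H, ∏ a, ((ρ a h).det ^ 2 * cycC p h ^ (N a * D a)) ^ t a = 1) → ∀ a, t a = 0)
    (H : Subgroup (Qbar ≃ₐ[K] Qbar)) (hH : IsOpen (H : Set (Qbar ≃ₐ[K] Qbar)))
    (f : MultilinearMap ℂ_[ℓ] (fun _ : Fin m => MM ℂ_[ℓ] D) ℂ_[ℓ])
    (hj : ∀ v w : Fin m → MM ℂ_[ℓ] D, (∀ i, v i (j i) = w i (j i)) → f v = f w)
    (hf : ∀ h ∈ H, ∀ v : Fin m → MM ℂ_[ℓ] D,
      f (fun i => gact N (fun a => π a h) (fun a => π a h⁻¹) (cycC ℓ h) (v i)) =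
        cycC ℓ h ^ c * f v)
    (t : κ → ℂ_[ℓ]) (ht : ∀ a, t a ≠ 0) (v : Fin m → MM ℂ_[ℓ] D) :
    f (fun i a => (t a • (v i a).1, (t a)⁻¹ • (v i a).2)) = f v := by
  rw [expand j f hj v, expand j f hj]
  refine Finset.sum_congr rfl fun s _ => ?_
  by_cases h0 : f (fun i => bvec j i (s i).1 (s i).2) = 0
  · rw [h0, mul_zero, mul_zero]
  · have h1 : ∀ h ∈ H, (Arep j N c π (cycM K ℓ) (fun i => (s i).1) h - 1).det = 0 := by
      intro h hh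
      exact eig j N c π (cycM K ℓ) f h (hf h hh) (fun i => (s i).1) (fun i => (s i).2) h0
    have h2 := det_transfer ip il (Arep j N c ρ (cycM K p) (fun i => (s i).1))
      (Arep_continuous j N c ρ (cycM K p) hρ cycC_continuous cycC_ne_zero _)
      (Arep j N c π (cycM K ℓ) (fun i => (s i).1))
      (Arep_values ip il ρ π hcomp N j c _) H hH h1
    obtain ⟨H', T, hH', hT1, hT2⟩ := relations hD ρ hρ hb m N j c hc (fun i => (s i).1) H hH h2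
    have h3 := hind H' hH' T (fun a => by
      have h4 := abs_Sa_card j (fun i => (s i).1) a
      rwa [hT1 a, abs_mul, Nat.abs_cast] at h4) hT2
    have h4 : ∀ a, Sa j (fun i => (s i).1) a = 0 := by
      intro a
      rw [hT1 a, h3 a, zero_mul]
    have h5 := prod_Sa j (fun i => (s i).1) t ht h4
    congr 1
    have h6 : ∀ i, co j i (s i) (fun a => (t a • (v i a).1, (t a)⁻¹ • (v i a).2)) =
        (if (s i).1 then t (j i) else (t (j i))⁻¹) * co j i (s i) (v i) := by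
      intro i
      unfold co
      split_ifs
      · rfl
      · rfl
    rw [Finset.prod_congr rfl fun i _ => h6 i, Finset.prod_mul_distrib, h5, one_mul]

/-- **Semi-invariant multilinear forms at `ℓ` are invariant under the torus.** -/
theorem balanced_l (hD : ∀ a, 0 < D a)
    (ρ : ∀ a, (Qbar ≃ₐ[K] Qbar) →* Matrix (Fin (D a)) (Fin (D a)) ℂ_[p])
    (hρ : ∀ a, Continuous (ρ a))
    (π : ∀ a, (Qbar ≃ₐ[K] Qbar) →* Matrix (Fin (D a)) (Fin (D a)) ℂ_[ℓ])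
    (hb : Big p ρ) (hcomp : CompatC ip il ρ π) (m : ℕ) (N : κ → ℤ) (j : Fin m → κ) (c : ℤ)
    (hc : 2 * c = -∑ i, N (j i))
    (hind : ∀ H : Subgroup (Qbar ≃ₐ[K] Qbar), IsOpen (H : Set (Qbar ≃ₐ[K] Qbar)) →
      ∀ t : κ → ℤ, (∀ a, |t a| * D a ≤ m) →
      (∀ h ∈ H, ∏ a, ((ρ a h).det ^ 2 * cycC p h ^ (N a * D a)) ^ t a = 1) → ∀ a, t a = 0)
    (H : Subgroup (Qbar ≃ₐ[K] Qbar)) (hH : IsOpen (H : Set (Qbar ≃ₐ[K] Qbar)))
    (f : MultilinearMap ℂ_[ℓ] (fun _ : Fin m => MM ℂ_[ℓ] D) ℂ_[ℓ])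
    (hj : ∀ v w : Fin m → MM ℂ_[ℓ] D, (∀ i, v i (j i) = w i (j i)) → f v = f w)
    (hf : ∀ h ∈ H, ∀ v : Fin m → MM ℂ_[ℓ] D,
      f (fun i => gact N (fun a => π a h) (fun a => π a h⁻¹) (cycC ℓ h) (v i)) =
        cycC ℓ h ^ c * f v)
    (t : κ → ℂ_[ℓ]) (ht : ∀ a, t a ≠ 0) (v : Fin m → MM ℂ_[ℓ] D) :
    f (fun i a => (t a • (v i a).1, (t a)⁻¹ • (v i a).2)) = f v := by
  refine balanced_lc ip il hD ρ hρ π hb hcomp m N j c hc (fun H' hH' t ht hh => ?_) H hH f hj hf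
    t ht v
  refine hind H' hH' t (fun a => (ht a).trans ?_) hh
  have h1 : (Finset.univ.filter fun i => j i = a).card ≤ m := by
    have := Finset.card_le_univ (Finset.univ.filter fun i => j i = a)
    rwa [Fintype.card_fin] at this
  exact_mod_cast h1

end Main

end Pool.Agent.TDG
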