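import Pool.Agent.Lib_helper61.TD.Kron
import Pool.Agent.Lib_helper29.NF.SemD
import Pool.Agent.Lib_helper7.TE.E2

/-!
# Semi-invariant multilinear forms and eigenvectors of tensor products; transfer of determinants
-/

set_option autoImplicit false
set_option linter.unusedSectionVars false

namespace Pool.Agent.TDG

open Matrix Polynomial Topology NumberField
open Pool.Agent.NF (MM gact)
open Pool.Agent.TT (Qbar)
open Pool.Agent.TB (fb_dense np_charpoly cycC cycC_mul cycC_one cycC_frob)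
open Pool.Agent.TE (CompatC exists_roots trace_pow)

section Coord

variable {k : Type*} [Field k] {κ : Type*} [DecidableEq κ] {D : κ → ℕ} {m : ℕ} (j : Fin m → κ)

/-- The basis vectors of the summand `V (j i)` or its dual. -/
def bvec (i : Fin m) (ε : Bool) (r : Fin (D (j i))) : MM k D :=
  Pi.single (j i) (if ε then (Pi.single r 1, 0) else (0, Pi.single r 1))

theorem bvec_same (i : Fin m) (ε : Bool) (r : Fin (D (j i))) :
    bvec (k := k) j i ε r (j i) = if ε then (Pi.single r 1, 0) else (0, Pi.single r 1) := by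
  rw [bvec, Pi.single_eq_same]

theorem bvec_ne (i : Fin m) (ε : Bool) (r : Fin (D (j i))) {a : κ} (ha : a ≠ j i) :
    bvec (k := k) j i ε r a = 0 := by
  rw [bvec, Pi.single_eq_of_ne ha]

/-- The coordinates. -/
def co (i : Fin m) (s : Bool × Fin (D (j i))) (x : MM k D) : k :=
  if s.1 then (x (j i)).1 s.2 else (x (j i)).2 s.2

theorem sum_single_smul {n : ℕ} (x : Fin n → k) : ∑ r, x r • (Pi.single r 1 : Fin n → k) = x := by
  funext t
  rw [Finset.sum_apply, Finset.sum_eq_single t]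
  · rw [Pi.smul_apply, Pi.single_eq_same, smul_eq_mul, mul_one]
  · intro r _ hr
    rw [Pi.smul_apply, Pi.single_eq_of_ne (Ne.symm hr), smul_zero]
  · intro h
    exact absurd (Finset.mem_univ t) h

theorem single_eq (i : Fin m) (x : MM k D) : (Pi.single (j i) (x (j i)) : MM k D) =
    ∑ s : Bool × Fin (D (j i)), co j i s x • bvec j i s.1 s.2 := by
  funext a
  rw [Finset.sum_apply]
  by_cases ha : a = j i
  · subst ha
    simp only [Pi.smul_apply, bvec_same, Pi.single_eq_same]
    rw [Fintype.sum_prod_type, Fintype.sum_bool]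
    refine Prod.ext ?_ ?_
    · rw [Prod.fst_add, Prod.fst_sum, Prod.fst_sum]
      simp only [co, if_true, Bool.false_eq_true, if_false, Prod.smul_fst, smul_zero,
        Finset.sum_const_zero, add_zero]
      exact (sum_single_smul _).symm
    · rw [Prod.snd_add, Prod.snd_sum, Prod.snd_sum]
      simp only [co, if_true, Bool.false_eq_true, if_false, Prod.smul_snd, smul_zero,
        Finset.sum_const_zero, zero_add]
      exact (sum_single_smul _).symm
  · rw [Pi.single_eq_of_ne ha, Finset.sum_eq_zero]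
    intro s _
    rw [Pi.smul_apply, bvec_ne j i _ _ ha, smul_zero]

/-- The expansion of a multilinear form that depends only on the components of index `j i`. -/
theorem expand (f : MultilinearMap k (fun _ : Fin m => MM k D) k)
    (hj : ∀ v w : Fin m → MM k D, (∀ i, v i (j i) = w i (j i)) → f v = f w) (v : Fin m → MM k D) :
    f v = ∑ s : (∀ i, Bool × Fin (D (j i))), (∏ i, co j i (s i) (v i)) *
      f (fun i => bvec j i (s i).1 (s i).2) := by
  have h1 : f v = f (fun i => ∑ s : Bool × Fin (D (j i)), co j i s (v i) • bvec j i s.1 s.2) := by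
    apply hj
    intro i
    rw [← single_eq, Pi.single_eq_same]
  rw [h1, MultilinearMap.map_sum]
  refine Finset.sum_congr rfl fun s _ => ?_
  rw [MultilinearMap.map_smul_univ, smul_eq_mul]

/-- The matrix of the action on `V` or on the twisted dual. -/
def Bmat {n : ℕ} (ε : Bool) (N : ℤ) (g g' : Matrix (Fin n) (Fin n) k) (c : k) :
    Matrix (Fin n) (Fin n) k := if ε then g else c ^ (-N) • g'ᵀ

theorem gact_bvec (N : κ → ℤ) (g g' : ∀ a, Matrix (Fin (D a)) (Fin (D a)) k) (c : k) (i : Fin m)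
    (ε : Bool) (r : Fin (D (j i))) : gact N g g' c (bvec j i ε r) =
      ∑ r', Bmat ε (N (j i)) (g (j i)) (g' (j i)) c r' r • bvec j i ε r' := by
  funext a
  rw [Finset.sum_apply]
  change (g a *ᵥ (bvec j i ε r a).1, (c ^ (-N a)) • ((g' a)ᵀ *ᵥ (bvec j i ε r a).2)) = _
  by_cases ha : a = j i
  · subst ha
    simp only [Pi.smul_apply, bvec_same]
    rcases ε with _ | _
    · refine Prod.ext ?_ ?_
      · rw [Prod.fst_sum]
        simp only [Bool.false_eq_true, if_false, Prod.smul_fst, smul_zero,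
          Finset.sum_const_zero, Matrix.mulVec_zero]
      · rw [Prod.snd_sum]
        simp only [Bool.false_eq_true, if_false, Prod.smul_snd]
        rw [sum_single_smul]
        funext t
        rw [Pi.smul_apply, Matrix.mulVec_single_one]
        rfl
    · refine Prod.ext ?_ ?_
      · rw [Prod.fst_sum]
        simp only [if_true, Prod.smul_fst]
        rw [sum_single_smul]
        funext t
        rw [Matrix.mulVec_single_one]
        rfl
      · rw [Prod.snd_sum]
        simp only [if_true, Prod.smul_snd, smul_zero, Finset.sum_const_zero, Matrix.mulVec_zero]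
  · rw [bvec_ne j i ε r ha, Finset.sum_eq_zero]
    · refine Prod.ext ?_ ?_
      · simp only [Prod.fst_zero, Matrix.mulVec_zero]
      · simp only [Prod.snd_zero, Matrix.mulVec_zero, smul_zero]
    · intro s _
      rw [Pi.smul_apply, bvec_ne j i _ _ ha, smul_zero]

variable {G : Type*} [Group G]

/-- The representation on `V` or on the twisted dual. -/
def Bhom {n : ℕ} (ε : Bool) (N : ℤ) (ρ : G →* Matrix (Fin n) (Fin n) k) (χ : G →* k) :
    G →* Matrix (Fin n) (Fin n) k := if ε then ρ else dualHom N ρ χ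

theorem Bhom_apply {n : ℕ} (ε : Bool) (N : ℤ) (ρ : G →* Matrix (Fin n) (Fin n) k) (χ : G →* k)
    (g : G) : Bhom ε N ρ χ g = Bmat ε N (ρ g) (ρ g⁻¹) (χ g) := by
  rcases ε with _ | _ <;> rfl

/-- The representation on the tensor product, twisted. -/
def Arep (N : κ → ℤ) (c : ℤ) (ρ : ∀ a, G →* Matrix (Fin (D a)) (Fin (D a)) k) (χ : G →* k)
    (ε : Fin m → Bool) : G →* Matrix (∀ i, Fin (D (j i))) (∀ i, Fin (D (j i))) k :=
  twHom (-c) (kron fun i => Bhom (ε i) (N (j i)) (ρ (j i)) χ) χ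

theorem Arep_apply (N : κ → ℤ) (c : ℤ) (ρ : ∀ a, G →* Matrix (Fin (D a)) (Fin (D a)) k)
    (χ : G →* k) (ε : Fin m → Bool) (g : G) : Arep j N c ρ χ ε g = χ g ^ (-c) •
      kmat fun i => Bmat (ε i) (N (j i)) (ρ (j i) g) (ρ (j i) g⁻¹) (χ g) := by
  simp only [← Bhom_apply]
  rfl

/-- A nonzero semi-invariant form gives an eigenvector. -/
theorem eig (N : κ → ℤ) (c : ℤ) (ρ : ∀ a, G →* Matrix (Fin (D a)) (Fin (D a)) k) (χ : G →* k)
    (f : MultilinearMap k (fun _ : Fin m => MM k D) k) (h : G)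
    (hf : ∀ v : Fin m → MM k D, f (fun i => gact N (fun a => ρ a h) (fun a => ρ a h⁻¹) (χ h)
      (v i)) = χ h ^ c * f v) (ε : Fin m → Bool) (I : ∀ i, Fin (D (j i)))
    (hI : f (fun i => bvec j i (ε i) (I i)) ≠ 0) : (Arep j N c ρ χ ε h - 1).det = 0 := by
  classical
  have hχ : χ h ≠ 0 := by
    intro h0
    have h1 : χ h * χ h⁻¹ = 1 := by rw [← map_mul, mul_inv_cancel, map_one]
    rw [h0, zero_mul] at h1
    exact zero_ne_one h1
  apply Matrix.exists_vecMul_eq_zero_iff.mp
  refine ⟨fun J => f (fun i => bvec j i (ε i) (J i)), fun h0 => hI (congrFun h0 I), ?_⟩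
  rw [Matrix.vecMul_sub, Matrix.vecMul_one, sub_eq_zero, Arep_apply]
  funext J
  have h1 := hf fun i => bvec j i (ε i) (J i)
  simp only [gact_bvec] at h1
  rw [MultilinearMap.map_sum] at h1
  have h2 : ∀ r : (∀ i, Fin (D (j i))),
      f (fun i => Bmat (ε i) (N (j i)) (ρ (j i) h) (ρ (j i) h⁻¹) (χ h) (r i) (J i) •
        bvec j i (ε i) (r i)) =
      f (fun i => bvec j i (ε i) (r i)) * kmat (fun i => Bmat (ε i) (N (j i)) (ρ (j i) h)
        (ρ (j i) h⁻¹) (χ h)) r J := by
    intro r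
    rw [MultilinearMap.map_smul_univ, smul_eq_mul, mul_comm]
    rfl
  rw [Finset.sum_congr rfl fun r _ => h2 r] at h1
  rw [Matrix.vecMul_smul, Pi.smul_apply]
  change χ h ^ (-c) • ∑ r, f (fun i => bvec j i (ε i) (r i)) * kmat _ r J = _
  rw [h1, smul_eq_mul, ← mul_assoc, ← zpow_add₀ hχ, neg_add_cancel, zpow_zero, one_mul]

end Coord

section Transfer

variable {K : Type} [Field K] [NumberField K] [Algebra K Qbar] {E : Type} [Field E]
  {p ℓ : ℕ} [Fact p.Prime] [Fact ℓ.Prime] (ip : E →+* ℂ_[p]) (il : E →+* ℂ_[ℓ])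

/-- **Transfer**: if at all elements of `H` the representation at `ℓ` has the eigenvalue `1`, so
does the representation at `p`. -/
theorem det_transfer {I : Type} [Fintype I] [DecidableEq I]
    (A : (Qbar ≃ₐ[K] Qbar) →* Matrix I I ℂ_[p]) (hA : Continuous A)
    (A' : (Qbar ≃ₐ[K] Qbar) →* Matrix I I ℂ_[ℓ])
    (hcomp : ∃ B : Finset ℕ, ∀ q : ℕ, q.Prime → q ∉ B → ∀ 𝔓 : Ideal (𝓞 Qbar), 𝔓.IsPrime →
      (q : 𝓞 Qbar) ∈ 𝔓 → ∀ σ : Qbar ≃ₐ[K] Qbar,
        (∀ x y : 𝓞 Qbar, (y : Qbar) = σ x → y - x ^ q ∈ 𝔓) →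
          ∀ r : ℕ, ∃ t : E, (A (σ⁻¹ ^ r)).trace = ip t ∧ (A' (σ⁻¹ ^ r)).trace = il t)
    (H : Subgroup (Qbar ≃ₐ[K] Qbar)) (hH : IsOpen (H : Set (Qbar ≃ₐ[K] Qbar)))
    (h0 : ∀ h ∈ H, (A' h - 1).det = 0) : ∀ h ∈ H, (A h - 1).det = 0 := by
  intro h hh
  obtain ⟨B, hB⟩ := hcomp
  by_contra hcon
  have hcont : Continuous (fun s : Qbar ≃ₐ[K] Qbar => (A s⁻¹ - 1).det) := by
    apply Continuous.matrix_det
    exact (hA.comp continuous_inv).sub continuous_const
  have hU : {s : Qbar ≃ₐ[K] Qbar | s ∈ H ∧ (A s⁻¹ - 1).det ≠ 0} ∈ 𝓝 h⁻¹ := by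
    apply Filter.inter_mem
    · exact hH.mem_nhds (H.inv_mem hh)
    · apply (isOpen_ne.preimage hcont).mem_nhds
      rw [Set.mem_preimage, inv_inv]
      exact hcon
  obtain ⟨q, hq, hqB, Q, hQ, hqQ, σ, ⟨hσH, hσ0⟩, hσ⟩ := fb_dense h⁻¹ _ hU B
  choose t ht1 ht2 using hB q hq hqB Q hQ hqQ σ hσ
  have hinj : ∀ {k : Type} [Field k] (τ : (Qbar ≃ₐ[K] Qbar) →* Matrix I I k),
      Function.Injective (Matrix.toLin' (τ σ⁻¹)) := by
    intro k _ τ x y hxy
    have h3 : Matrix.toLin' (τ σ) (Matrix.toLin' (τ σ⁻¹) x) =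
        Matrix.toLin' (τ σ) (Matrix.toLin' (τ σ⁻¹) y) := by rw [hxy]
    rw [← Matrix.toLin'_mul_apply, ← Matrix.toLin'_mul_apply, ← map_mul, mul_inv_cancel, map_one,
      Matrix.toLin'_one, LinearMap.id_apply, LinearMap.id_apply] at h3
    exact h3
  obtain ⟨f, hf1, hf2⟩ := np_charpoly ip il (Matrix.toLin' (A σ⁻¹)) (Matrix.toLin' (A' σ⁻¹))
    (hinj A) (hinj A') t (by
    intro j hj
    have h3 : A (σ⁻¹ ^ j) = A σ⁻¹ ^ j := map_pow _ _ _
    rw [← ht1 j, h3, ← Matrix.toLin'_pow, Matrix.trace_toLin'_eq]) (by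
    intro j hj
    have h3 : A' (σ⁻¹ ^ j) = A' σ⁻¹ ^ j := map_pow _ _ _
    rw [← ht2 j, h3, ← Matrix.toLin'_pow, Matrix.trace_toLin'_eq])
  rw [Matrix.charpoly_toLin'] at hf1 hf2
  have hev : ∀ {k : Type} [Field k] (M : Matrix I I k), M.charpoly.eval 1 = (1 - M).det := by
    intro k _ M
    rw [Matrix.eval_charpoly, map_one]
  have hneg : ∀ {k : Type} [Field k] (M : Matrix I I k), (M - 1).det = 0 ↔ (1 - M).det = 0 := by
    intro k _ M
    rw [← neg_sub, Matrix.det_neg]
    constructor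
    · intro h1
      rcases mul_eq_zero.mp h1 with h2 | h2
      · exact absurd h2 (pow_ne_zero _ (neg_ne_zero.mpr one_ne_zero))
      · exact h2
    · intro h1
      rw [h1, mul_zero]
  apply hσ0
  rw [hneg, ← hev, hf1, Polynomial.eval_map, ← map_one ip, Polynomial.eval₂_at_apply]
  have h1 := (hneg _).mp (h0 σ⁻¹ (H.inv_mem hσH))
  rw [← hev, hf2, Polynomial.eval_map, ← map_one il, Polynomial.eval₂_at_apply, map_eq_zero] at h1
  rw [h1, map_zero]

/-- The traces of the powers. -/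
theorem tr_values [IsAlgClosed E] {n : Type} [Fintype n] [DecidableEq n] (M : Matrix n n ℂ_[p])
    (M' : Matrix n n ℂ_[ℓ]) (h : ∃ f : E[X], M.charpoly = f.map ip ∧ M'.charpoly = f.map il)
    (r : ℕ) : ∃ t : E, (M ^ r).trace = ip t ∧ (M' ^ r).trace = il t := by
  obtain ⟨f, h1, h2⟩ := h
  have hm : f.Monic := by
    have h3 := M.charpoly_monic
    rw [h1] at h3
    exact Polynomial.monic_of_injective ip.injective h3
  have hd : f.natDegree = Fintype.card n := by
    rw [← Matrix.charpoly_natDegree_eq_dim M, h1, Polynomial.natDegree_map]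
  obtain ⟨α, hα⟩ := exists_roots hm hd
  let e : n ≃ Fin (Fintype.card n) := Fintype.equivFin n
  have hprod : ∀ {k : Type} [Field k] (i : E →+* k), f.map i = ∏ x : n, (X - C (i (α (e x)))) := by
    intro k _ i
    rw [hα, Polynomial.map_prod, ← e.prod_comp]
    refine Finset.prod_congr rfl fun x _ => ?_
    rw [Polynomial.map_sub, Polynomial.map_X, Polynomial.map_C]
  refine ⟨∑ x, α (e x) ^ r, ?_, ?_⟩
  · rw [trace_pow M (fun x => ip (α (e x))) (h1.trans (hprod ip)) r, map_sum]
    exact Finset.sum_congr rfl fun x _ => (map_pow ip _ _).symm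
  · rw [trace_pow M' (fun x => il (α (e x))) (h2.trans (hprod il)) r, map_sum]
    exact Finset.sum_congr rfl fun x _ => (map_pow il _ _).symm

theorem reverse_map' {k : Type*} [Field k] (i : E →+* k) (f : E[X]) :
    (f.map i).reverse = f.reverse.map i := by
  ext n
  rw [Polynomial.coeff_reverse, Polynomial.coeff_map, Polynomial.coeff_map,
    Polynomial.coeff_reverse, Polynomial.natDegree_map]

/-- The characteristic polynomial of the inverse. -/
theorem inv_charpoly {n : Type} [Fintype n] [DecidableEq n] {k : Type} [Field k] (i : E →+* k)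
    (M M₁ : Matrix n n k) (hM : M * M₁ = 1) (f : E[X]) (h : M.charpoly = f.map i) :
    M₁.charpoly = ((-1) ^ Fintype.card n * C ((-1) ^ Fintype.card n * f.coeff 0)⁻¹ *
      f.reverse).map i := by
  have hinv : M₁ = M⁻¹ := (Matrix.inv_eq_right_inv hM).symm
  have hu : IsUnit M := (Matrix.isUnit_iff_isUnit_det M).mpr
    (Matrix.isUnit_det_of_right_inverse hM)
  have hdet : M.det = i ((-1) ^ Fintype.card n * f.coeff 0) := by
    rw [Matrix.det_eq_sign_charpoly_coeff, h, Polynomial.coeff_map, map_mul, map_pow, map_neg,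
      map_one]
  rw [hinv, Matrix.charpoly_inv M hu, ← Matrix.reverse_charpoly, h, reverse_map',
    Ring.inverse_eq_inv', hdet, Polynomial.map_mul, Polynomial.map_mul, Polynomial.map_pow,
    Polynomial.map_neg, Polynomial.map_one, Polynomial.map_C, map_inv₀ i]

theorem inv_values {n : Type} [Fintype n] [DecidableEq n] (M M₁ : Matrix n n ℂ_[p])
    (M' M₁' : Matrix n n ℂ_[ℓ]) (hM : M * M₁ = 1) (hM' : M' * M₁' = 1)
    (h : ∃ f : E[X], M.charpoly = f.map ip ∧ M'.charpoly = f.map il) :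
    ∃ f : E[X], M₁.charpoly = f.map ip ∧ M₁'.charpoly = f.map il := by
  obtain ⟨f, h1, h2⟩ := h
  exact ⟨_, inv_charpoly ip M M₁ hM f h1, inv_charpoly il M' M₁' hM' f h2⟩

end Transfer

end Pool.Agent.TDG
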