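import Pool.Agent.Lib_helper61.TD.BalA
import Pool.Agent.Lib_helper29.NF.Big
import Pool.Agent.Lib_helper29.NF.LogK

/-!
# The weights of the tensor products and the relations between the determinants
-/

set_option autoImplicit false
set_option linter.unusedSectionVars false

namespace Pool.Agent.TDG

open Matrix Filter Topology Pool.Agent.TBL
open Pool.Agent.NF (MM gact PA LS lgs Small small_zpow lg_zpow)

section Comb

variable {κ : Type*} [Fintype κ] [DecidableEq κ] {m : ℕ} (j : Fin m → κ) (ε : Fin m → Bool)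

/-- The sign of a slot. -/
def sg (i : Fin m) : ℤ := if ε i then 1 else -1

/-- The number of the slots in `V a` minus the number of the slots in its dual. -/
def Sa (a : κ) : ℤ := ∑ i, if j i = a then sg ε i else 0

theorem sum_Sa {k : Type*} [Field k] (x : κ → k) :
    ∑ a, (Sa j ε a : k) * x a = ∑ i, (sg ε i : k) * x (j i) := by
  have h1 : ∀ a, (Sa j ε a : k) * x a = ∑ i, if j i = a then (sg ε i : k) * x a else 0 := by
    intro a
    rw [Sa, Int.cast_sum, Finset.sum_mul]
    refine Finset.sum_congr rfl fun i _ => ?_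
    split_ifs
    · rfl
    · rw [Int.cast_zero, zero_mul]
  rw [Finset.sum_congr rfl fun a _ => h1 a, Finset.sum_comm]
  refine Finset.sum_congr rfl fun i _ => ?_
  rw [Finset.sum_ite_eq Finset.univ (j i) fun a => (sg ε i : k) * x a,
    if_pos (Finset.mem_univ _)]

theorem abs_Sa (a : κ) : |Sa j ε a| ≤ m := by
  refine (Finset.abs_sum_le_sum_abs _ _).trans ?_
  have h1 : ∀ i ∈ (Finset.univ : Finset (Fin m)), |if j i = a then sg ε i else 0| ≤ (1 : ℤ) := by
    intro i _
    unfold sg
    split_ifs <;> simp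
  refine (Finset.sum_le_sum h1).trans ?_
  simp

theorem abs_Sa_card (a : κ) : |Sa j ε a| ≤ (Finset.univ.filter fun i => j i = a).card := by
  unfold Sa
  rw [← Finset.sum_filter]
  refine (Finset.abs_sum_le_sum_abs _ _).trans ?_
  have h1 : ∀ i ∈ Finset.univ.filter fun i => j i = a, |sg ε i| ≤ (1 : ℤ) := by
    intro i _
    unfold sg
    split_ifs <;> simp
  refine (Finset.sum_le_sum h1).trans ?_
  simp

theorem zpow_sum₀ {k : Type*} [Field k] {t : k} (ht : t ≠ 0) {ι : Type*} (s : Finset ι)
    (f : ι → ℤ) : t ^ (∑ i ∈ s, f i) = ∏ i ∈ s, t ^ f i := by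
  classical
  induction s using Finset.induction_on with
  | empty => simp
  | insert a s ha ih => rw [Finset.sum_insert ha, Finset.prod_insert ha, zpow_add₀ ht, ih]

theorem prod_Sa {k : Type*} [Field k] (t : κ → k) (ht : ∀ a, t a ≠ 0)
    (h : ∀ a, Sa j ε a = 0) : ∏ i, (if ε i then t (j i) else (t (j i))⁻¹) = 1 := by
  have h1 : ∀ i, (if ε i then t (j i) else (t (j i))⁻¹) = t (j i) ^ sg ε i := by
    intro i
    unfold sg
    split_ifs
    · rw [zpow_one]
    · rw [_root_.zpow_neg, zpow_one]
  rw [Finset.prod_congr rfl fun i _ => h1 i]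
  have h2 : ∏ a, t a ^ Sa j ε a = ∏ i, t (j i) ^ sg ε i := by
    have h3 : ∀ a, t a ^ Sa j ε a = ∏ i, if j i = a then t a ^ sg ε i else 1 := by
      intro a
      rw [Sa, zpow_sum₀ (ht a)]
      refine Finset.prod_congr rfl fun i _ => ?_
      split_ifs
      · rfl
      · rw [zpow_zero]
    rw [Finset.prod_congr rfl fun a _ => h3 a, Finset.prod_comm]
    refine Finset.prod_congr rfl fun i _ => ?_
    rw [Finset.prod_ite_eq Finset.univ (j i) fun a => t a ^ sg ε i, if_pos (Finset.mem_univ _)]
  rw [← h2]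
  refine Finset.prod_eq_one fun a _ => ?_
  rw [h a, zpow_zero]

end Comb

section Weights

variable {k : Type*} [NontriviallyNormedField k] [IsUltrametricDist k] [CompleteSpace k]
  {κ : Type*} [Fintype κ] [DecidableEq κ] {D : κ → ℕ} {m : ℕ} (j : Fin m → κ)
  {G : Type*} [Group G]

attribute [local instance] matRing matAlg matUltra matComplete

/-- The derivative of `Bmat`. -/
def dB {n : ℕ} (ε : Bool) (N : ℤ) (X : Matrix (Fin n) (Fin n) k) (ξ : k) :
    Matrix (Fin n) (Fin n) k := if ε then X else (-((N : k) * ξ)) • 1 + (-X)ᵀ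

theorem dB_add {n : ℕ} (ε : Bool) (N : ℤ) (X Y : Matrix (Fin n) (Fin n) k) (ξ η : k) :
    dB ε N (X + Y) (ξ + η) = dB ε N X ξ + dB ε N Y η := by
  rcases ε with _ | _
  · simp only [dB, Bool.false_eq_true, if_false, mul_add, neg_add, add_smul,
      Matrix.transpose_add]
    abel
  · rfl

theorem dB_smul {n : ℕ} (ε : Bool) (N : ℤ) (c : k) (X : Matrix (Fin n) (Fin n) k) (ξ : k) :
    dB ε N (c • X) (c * ξ) = c • dB ε N X ξ := by
  rcases ε with _ | _
  · simp only [dB, Bool.false_eq_true, if_false, smul_add, smul_smul, ← smul_neg,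
      Matrix.transpose_smul]
    congr 2
    ring
  · rfl

theorem dB_diagonal {n : ℕ} (ε : Bool) (N : ℤ) (y : Fin n → k) (ξ : k) :
    dB ε N (Matrix.diagonal y) ξ =
      Matrix.diagonal fun r => if ε then y r else -((N : k) * ξ) - y r := by
  rcases ε with _ | _
  · simp only [dB, Bool.false_eq_true, if_false]
    ext r s
    by_cases h : r = s
    · subst h
      simp only [Matrix.add_apply, Matrix.smul_apply, Matrix.one_apply_eq, Matrix.transpose_apply,
        Matrix.neg_apply, Matrix.diagonal_apply_eq, smul_eq_mul, mul_one]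
      ring
    · rw [Matrix.diagonal_apply_ne _ h, Matrix.add_apply, Matrix.smul_apply,
        Matrix.one_apply_ne h, Matrix.transpose_apply, Matrix.neg_apply,
        Matrix.diagonal_apply_ne _ (Ne.symm h), smul_zero, neg_zero, add_zero]
  · simp only [dB, if_true]

/-- The derivative of the tensor representation. -/
def Lz (N : κ → ℤ) (c : ℤ) (ε : Fin m → Bool) :
    PA k D →ₗ[k] Matrix (∀ i, Fin (D (j i))) (∀ i, Fin (D (j i))) k where
  toFun z := (((-c : ℤ) : k) * z.2) • 1 + dkmat fun i => dB (ε i) (N (j i)) (z.1 (j i)) z.2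
  map_add' z w := by
    have h1 : (fun i => dB (ε i) (N (j i)) ((z + w).1 (j i)) (z + w).2) =
        (fun i => dB (ε i) (N (j i)) (z.1 (j i)) z.2) +
          fun i => dB (ε i) (N (j i)) (w.1 (j i)) w.2 := by
      funext i
      exact dB_add _ _ _ _ _ _
    rw [h1, dkmat_add, Prod.snd_add, mul_add, add_smul]
    abel
  map_smul' r z := by
    have h1 : (fun i => dB (ε i) (N (j i)) ((r • z).1 (j i)) (r • z).2) =
        r • fun i => dB (ε i) (N (j i)) (z.1 (j i)) z.2 := by
      funext i
      exact dB_smul _ _ _ _ _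
    rw [h1, dkmat_smul, Prod.smul_snd, smul_eq_mul, RingHom.id_apply, smul_add, smul_smul]
    congr 2
    ring

theorem Lz_diagonal (N : κ → ℤ) (c : ℤ) (ε : Fin m → Bool) (y : ∀ a, Fin (D a) → k) (ξ : k) :
    Lz j N c ε ((fun a => Matrix.diagonal (y a), ξ) : PA k D) =
      Matrix.diagonal fun I => ((-c : ℤ) : k) * ξ +
        ∑ i, (if ε i then y (j i) (I i) else -((N (j i) : k) * ξ) - y (j i) (I i)) := by
  change (((-c : ℤ) : k) * ξ) • 1 + dkmat (fun i => dB (ε i) (N (j i))
    (Matrix.diagonal (y (j i))) ξ) = _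
  simp only [dB_diagonal]
  rw [dkmat_diagonal, Matrix.smul_one_eq_diagonal, Matrix.diagonal_add]

/-- The limits of the tensor representation. -/
theorem Lz_lim (N : κ → ℤ) (c : ℤ) (ε : Fin m → Bool)
    (ρ : ∀ a, G →* Matrix (Fin (D a)) (Fin (D a)) k) (χ : G →* k) {p : ℕ}
    (hp0 : (p : k) ≠ 0) (hp : ‖(p : k)‖ < 1) (H : Subgroup G)
    (hH : ∀ h ∈ H, Small ρ χ p h) (h : G) (hh : h ∈ H) :
    Lz j N c ε (lgs ρ χ p h) ∈ lims (Arep j N c ρ χ ε) H p := by
  have hs := hH h hh
  have hs' := hH h⁻¹ (H.inv_mem hh)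
  refine ⟨fun n => h ^ p ^ n, fun n => H.pow_mem hh _, ?_⟩
  have hz : ∀ e : ℤ, SLim p (fun n => χ (h ^ p ^ n) ^ e) 1 ((e : k) * lg k p (χ h)) := by
    intro e
    rw [SLim.iff]
    have h1 := tendsto_dq (k := k) hp0 hp (small_zpow hp hs.2 e)
    rw [lg_zpow hp0 hp hs.2] at h1
    refine h1.congr fun n => ?_
    have h2 : (χ h ^ e) ^ p ^ n = (χ h ^ p ^ n) ^ e := by
      rw [← zpow_natCast (χ h ^ e), ← zpow_natCast (χ h), ← _root_.zpow_mul, ← _root_.zpow_mul,
        mul_comm]
    rw [dq, map_pow, h2]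
  have hρ1 : ∀ a, Lim p (fun n => ρ a (h ^ p ^ n)) (lg k p (ρ a h)) := by
    intro a
    simp only [map_pow]
    exact Lim.lg hp0 hp (hs.1 a)
  have hρ2 : ∀ a, Lim p (fun n => ρ a (h ^ p ^ n)⁻¹) (-lg k p (ρ a h)) := by
    intro a
    refine Lim.inv (hρ1 a) (fun n => ?_) ?_
    · rw [← map_mul, mul_inv_cancel, map_one]
    · have h1 := tendsto_pow_pow (k := k) hp (hs'.1 a)
      refine h1.congr fun n => ?_
      rw [← map_pow, inv_pow]
  have hB : ∀ i, Lim p (fun n => Bmat (ε i) (N (j i)) (ρ (j i) (h ^ p ^ n))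
      (ρ (j i) (h ^ p ^ n)⁻¹) (χ (h ^ p ^ n)))
      (dB (ε i) (N (j i)) (lg k p (ρ (j i) h)) (lg k p (χ h))) := by
    intro i
    rcases hε : ε i with _ | _
    · simp only [Bmat, dB, Bool.false_eq_true, if_false]
      have h1 := Lim.smul hp0 hp (hz (-N (j i))) (hρ2 (j i)).transpose
      have h2 : ((-N (j i) : ℤ) : k) * lg k p (χ h) = -((N (j i) : k) * lg k p (χ h)) := by
        push_cast
        ring
      rw [h2] at h1
      exact h1
    · simp only [Bmat, dB, if_true]
      exact hρ1 (j i)
  have h1 := Lim.smul hp0 hp (hz (-c)) (Lim.kmat hp0 hp hB)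
  have h2 : (fun n => Arep j N c ρ χ ε (h ^ p ^ n)) = fun n => χ (h ^ p ^ n) ^ (-c) •
      kmat fun i => Bmat (ε i) (N (j i)) (ρ (j i) (h ^ p ^ n)) (ρ (j i) (h ^ p ^ n)⁻¹)
        (χ (h ^ p ^ n)) := by
    funext n
    exact Arep_apply j N c ρ χ ε (h ^ p ^ n)
  rw [h2]
  exact h1

/-- The value of the weight of index `I`. -/
def lam (N : κ → ℤ) (c : ℤ) (ε : Fin m → Bool) (I : ∀ i, Fin (D (j i))) :
    Module.Dual k ((∀ a, Fin (D a) → k) × k) where
  toFun w := ((-c : ℤ) : k) * w.2 +
        ∑ i, (if ε i then w.1 (j i) (I i) else -((N (j i) : k) * w.2) - w.1 (j i) (I i))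
  map_add' v w := by
    rw [Prod.snd_add, mul_add]
    have h1 : ∀ i, (if ε i then (v + w).1 (j i) (I i) else
        -((N (j i) : k) * (v.2 + w.2)) - (v + w).1 (j i) (I i)) =
        (if ε i then v.1 (j i) (I i) else -((N (j i) : k) * v.2) - v.1 (j i) (I i)) +
        (if ε i then w.1 (j i) (I i) else -((N (j i) : k) * w.2) - w.1 (j i) (I i)) := by
      intro i
      have h2 : (v + w).1 (j i) (I i) = v.1 (j i) (I i) + w.1 (j i) (I i) := rfl
      rw [h2]
      split_ifs
      · rfl
      · ring
    rw [Finset.sum_congr rfl fun i _ => h1 i, Finset.sum_add_distrib]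
    ring
  map_smul' r w := by
    rw [Prod.smul_snd, smul_eq_mul, RingHom.id_apply, smul_eq_mul, mul_add, Finset.mul_sum]
    have h1 : ∀ i, (if ε i then (r • w).1 (j i) (I i) else
        -((N (j i) : k) * (r * w.2)) - (r • w).1 (j i) (I i)) =
        r * (if ε i then w.1 (j i) (I i) else -((N (j i) : k) * w.2) - w.1 (j i) (I i)) := by
      intro i
      have h2 : (r • w).1 (j i) (I i) = r * w.1 (j i) (I i) := rfl
      rw [h2]
      split_ifs
      · rfl
      · ring
    rw [Finset.sum_congr rfl fun i _ => h1 i]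
    ring

/-- The diagonal elements of the span of the logarithms. -/
def PD (L : Submodule k (PA k D)) : Submodule k ((∀ a, Fin (D a) → k) × k) where
  carrier := {w | ((fun a => Matrix.diagonal (w.1 a), w.2) : PA k D) ∈ L}
  add_mem' {v w} hv hw := by
    have h1 : ((fun a => Matrix.diagonal ((v + w).1 a), (v + w).2) : PA k D) =
        (fun a => Matrix.diagonal (v.1 a), v.2) + (fun a => Matrix.diagonal (w.1 a), w.2) := by
      refine Prod.ext ?_ rfl
      funext a
      exact (Matrix.diagonal_add _ _).symm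
    rw [Set.mem_setOf_eq, h1]
    exact L.add_mem hv hw
  zero_mem' := by
    have h1 : ((fun a => Matrix.diagonal ((0 : (∀ a, Fin (D a) → k) × k).1 a),
        (0 : (∀ a, Fin (D a) → k) × k).2) : PA k D) = 0 := by
      refine Prod.ext ?_ rfl
      funext a
      exact Matrix.diagonal_zero
    rw [Set.mem_setOf_eq, h1]
    exact L.zero_mem
  smul_mem' r w hw := by
    have h1 : ((fun a => Matrix.diagonal ((r • w).1 a), (r • w).2) : PA k D) =
        r • (fun a => Matrix.diagonal (w.1 a), w.2) := by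
      refine Prod.ext ?_ rfl
      funext a
      exact Matrix.diagonal_smul r _
    rw [Set.mem_setOf_eq, h1]
    exact L.smul_mem r hw

theorem mem_PD (L : Submodule k (PA k D)) (w : (∀ a, Fin (D a) → k) × k) :
    w ∈ PD L ↔ ((fun a => Matrix.diagonal (w.1 a), w.2) : PA k D) ∈ L := Iff.rfl

/-- If the determinants vanish, some weight vanishes. -/
theorem exists_weight (N : κ → ℤ) (c : ℤ) (ε : Fin m → Bool) (L : Submodule k (PA k D))
    (h : ∀ z ∈ L, (Lz j N c ε z).det = 0) :
    ∃ I : ∀ i, Fin (D (j i)), ∀ w ∈ PD L, lam j N c ε I w = 0 := by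
  by_contra hcon
  push Not at hcon
  obtain ⟨w, hw, hne⟩ := Module.Dual.exists_forall_mem_ne_zero_of_forall_exists (PD L)
    (fun I => lam (k := k) j N c ε I) hcon
  have h1 := h _ hw
  rw [Lz_diagonal, Matrix.det_diagonal, Finset.prod_eq_zero_iff] at h1
  obtain ⟨I, _, hI⟩ := h1
  exact hne I hI

/-- The consequences of the vanishing of a weight. -/
theorem weight_rel [CharZero k] (hD : ∀ a, 0 < D a) (N : κ → ℤ) (c : ℤ)
    (hc : 2 * c = -∑ i, N (j i)) (ε : Fin m → Bool) (L : Submodule k (PA k D))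
    (hsl : ∀ z : ∀ a, Matrix (Fin (D a)) (Fin (D a)) k, (∀ a, (z a).trace = 0) → (z, 0) ∈ L)
    (I : ∀ i, Fin (D (j i))) (hI : ∀ w ∈ PD L, lam j N c ε I w = 0) :
    ∃ T : κ → ℤ, (∀ a, Sa j ε a = T a * D a) ∧
      ∀ z ∈ L, ∑ a, (T a : k) * (2 * (z.1 a).trace + ((N a * D a : ℤ) : k) * z.2) = 0 := by
  classical
  -- the counting function
  let cnt : κ → ℕ → ℤ := fun a r => ∑ i, if j i = a ∧ (I i : ℕ) = r then sg ε i else 0
  have hlam0 : ∀ y : ∀ a, Fin (D a) → k, lam j N c ε I (y, 0) = ∑ i, (sg ε i : k) *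
      y (j i) (I i) := by
    intro y
    change ((-c : ℤ) : k) * 0 + ∑ i, (if ε i then y (j i) (I i) else
      -((N (j i) : k) * 0) - y (j i) (I i)) = _
    rw [mul_zero, zero_add]
    refine Finset.sum_congr rfl fun i _ => ?_
    unfold sg
    split_ifs
    · rw [Int.cast_one, one_mul]
    · push_cast
      ring
  have hsing : ∀ (a : κ) (r : Fin (D a)) (i : Fin m),
      (Pi.single a (Pi.single r (1 : k)) : ∀ a, Fin (D a) → k) (j i) (I i) =
        if j i = a ∧ (I i : ℕ) = r then 1 else 0 := by
    intro a r i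
    by_cases ha : j i = a
    · subst ha
      rw [Pi.single_eq_same]
      by_cases hr : I i = r
      · rw [hr, Pi.single_eq_same, if_pos ⟨rfl, rfl⟩]
      · rw [Pi.single_eq_of_ne hr, if_neg fun h => hr (Fin.ext h.2)]
    · rw [Pi.single_eq_of_ne ha, if_neg fun h => ha h.1]
      rfl
  have hconst : ∀ (a : κ) (r r' : Fin (D a)), cnt a r = cnt a r' := by
    intro a r r'
    have hmem : ((Pi.single a (Pi.single r (1 : k)) - Pi.single a (Pi.single r' (1 : k)) :
        ∀ a, Fin (D a) → k), (0 : k)) ∈ PD L := by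
      rw [mem_PD]
      refine hsl (fun b => Matrix.diagonal ((Pi.single a (Pi.single r (1 : k)) -
        Pi.single a (Pi.single r' (1 : k)) : ∀ a, Fin (D a) → k) b)) fun b => ?_
      rw [Matrix.trace_diagonal]
      have h1 : ∀ s : Fin (D a), ∑ t, (Pi.single a (Pi.single s (1 : k)) :
          ∀ a, Fin (D a) → k) b t = if b = a then 1 else 0 := by
        intro s
        by_cases hb : b = a
        · subst hb
          rw [Pi.single_eq_same, if_pos rfl, Finset.sum_eq_single s]
          · rw [Pi.single_eq_same]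
          · intro t _ ht
            rw [Pi.single_eq_of_ne ht]
          · intro h
            exact absurd (Finset.mem_univ s) h
        · rw [Pi.single_eq_of_ne hb, if_neg hb]
          simp
      simp only [Pi.sub_apply]
      rw [Finset.sum_sub_distrib, h1, h1, sub_self]
    have h1 := hI _ hmem
    rw [hlam0] at h1
    have h2 : ∀ i, (sg ε i : k) * (Pi.single a (Pi.single r (1 : k)) -
        Pi.single a (Pi.single r' (1 : k)) : ∀ a, Fin (D a) → k) (j i) (I i) =
        ((if j i = a ∧ (I i : ℕ) = r then sg ε i else 0 : ℤ) : k) -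
        ((if j i = a ∧ (I i : ℕ) = r' then sg ε i else 0 : ℤ) : k) := by
      intro i
      rw [Pi.sub_apply, Pi.sub_apply, hsing, hsing, mul_sub]
      congr 1
      · split_ifs
        · rw [mul_one]
        · rw [mul_zero, Int.cast_zero]
      · split_ifs
        · rw [mul_one]
        · rw [mul_zero, Int.cast_zero]
    rw [Finset.sum_congr rfl fun i _ => h2 i, Finset.sum_sub_distrib, ← Int.cast_sum,
      ← Int.cast_sum, sub_eq_zero] at h1
    exact_mod_cast h1
  refine ⟨fun a => cnt a 0, ?_, ?_⟩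
  · intro a
    have h1 : Sa j ε a = ∑ r : Fin (D a), cnt a r := by
      have h2 : ∑ r : Fin (D a), cnt a r =
          ∑ i, ∑ r : Fin (D a), if j i = a ∧ (I i : ℕ) = r then sg ε i else 0 := Finset.sum_comm
      rw [h2, Sa]
      refine Finset.sum_congr rfl fun i _ => ?_
      by_cases ha : j i = a
      · subst ha
        rw [if_pos rfl, Finset.sum_eq_single (I i)]
        · rw [if_pos ⟨rfl, rfl⟩]
        · intro r _ hr
          rw [if_neg fun h => hr (Fin.ext h.2.symm)]
        · intro h
          exact absurd (Finset.mem_univ _) h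
      · rw [if_neg ha]
        symm
        refine Finset.sum_eq_zero fun r _ => ?_
        rw [if_neg fun h => ha h.1]
    rw [h1]
    have h2 : ∀ r : Fin (D a), cnt a r = cnt a 0 := fun r => hconst a r ⟨0, hD a⟩
    rw [Finset.sum_congr rfl fun r _ => h2 r, Finset.sum_const, Finset.card_univ,
      Fintype.card_fin, nsmul_eq_mul, mul_comm]
  · intro z hz
    have hSa : ∀ a, Sa j ε a = cnt a 0 * D a := by
      intro a
      have h1 : Sa j ε a = ∑ r : Fin (D a), cnt a r := by
        have h2 : ∑ r : Fin (D a), cnt a r =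
            ∑ i, ∑ r : Fin (D a), if j i = a ∧ (I i : ℕ) = r then sg ε i else 0 :=
          Finset.sum_comm
        rw [h2, Sa]
        refine Finset.sum_congr rfl fun i _ => ?_
        by_cases ha : j i = a
        · subst ha
          rw [if_pos rfl, Finset.sum_eq_single (I i)]
          · rw [if_pos ⟨rfl, rfl⟩]
          · intro r _ hr
            rw [if_neg fun h => hr (Fin.ext h.2.symm)]
          · intro h
            exact absurd (Finset.mem_univ _) h
        · rw [if_neg ha]
          symm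
          refine Finset.sum_eq_zero fun r _ => ?_
          rw [if_neg fun h => ha h.1]
      rw [h1]
      have h2 : ∀ r : Fin (D a), cnt a r = cnt a 0 := fun r => hconst a r ⟨0, hD a⟩
      rw [Finset.sum_congr rfl fun r _ => h2 r, Finset.sum_const, Finset.card_univ,
        Fintype.card_fin, nsmul_eq_mul, mul_comm]
    have hD0 : ∀ a, (D a : k) ≠ 0 := fun a => Nat.cast_ne_zero.mpr (hD a).ne'
    -- replace `z` by scalars
    have hmem : ((fun a _ => (z.1 a).trace / D a : ∀ a, Fin (D a) → k), z.2) ∈ PD L := by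
      rw [mem_PD]
      have h1 : ((fun a => z.1 a - Matrix.diagonal fun _ => (z.1 a).trace / D a, (0 : k)) :
          PA k D) ∈ L := by
        refine hsl _ fun a => ?_
        rw [Matrix.trace_sub, Matrix.trace_diagonal, Finset.sum_const, Finset.card_univ,
          Fintype.card_fin, nsmul_eq_mul, mul_div_cancel₀ _ (hD0 a), sub_self]
      have h2 := L.sub_mem hz h1
      have h3 : z - ((fun a => z.1 a - Matrix.diagonal fun _ => (z.1 a).trace / D a, (0 : k)) :
          PA k D) = (fun a => Matrix.diagonal fun _ => (z.1 a).trace / D a, z.2) := by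
        refine Prod.ext ?_ ?_
        · funext a
          exact sub_sub_cancel _ _
        · exact sub_zero _
      rw [h3] at h2
      exact h2
    have h1 := hI _ hmem
    have h2 : (2 : k) * lam j N c ε I ((fun a _ => (z.1 a).trace / D a : ∀ a, Fin (D a) → k),
        z.2) = ∑ i, (sg ε i : k) * (2 * ((z.1 (j i)).trace / D (j i)) + (N (j i) : k) * z.2) := by
      change (2 : k) * (((-c : ℤ) : k) * z.2 + ∑ i, (if ε i then (z.1 (j i)).trace / D (j i) else
        -((N (j i) : k) * z.2) - (z.1 (j i)).trace / D (j i))) = _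
      have h3 : (2 : k) * ((-c : ℤ) : k) = ∑ i, (N (j i) : k) := by
        have h4 : (2 : ℤ) * (-c) = ∑ i, N (j i) := by linarith
        have h5 := congrArg (Int.cast : ℤ → k) h4
        push_cast at h5
        push_cast
        exact h5
      rw [mul_add, ← mul_assoc, h3, Finset.sum_mul, Finset.mul_sum, ← Finset.sum_add_distrib]
      refine Finset.sum_congr rfl fun i _ => ?_
      unfold sg
      split_ifs
      · push_cast
        ring
      · push_cast
        ring
    rw [h1, mul_zero] at h2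
    rw [h2, ← sum_Sa j ε fun a => 2 * ((z.1 a).trace / D a) + (N a : k) * z.2]
    refine Finset.sum_congr rfl fun a _ => ?_
    rw [hSa a]
    push_cast
    field_simp [hD0 a]

end Weights

end Pool.Agent.TDG
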