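import Pool.Agent.Lib_helper7.TB.Lie

/-!
# Determinants on the span of the logarithms
-/

set_option autoImplicit false

namespace Pool.Agent.TDG

open Filter Topology Pool.Agent.TBL

section

variable {k : Type*} [NontriviallyNormedField k] [IsUltrametricDist k] [CompleteSpace k]
  {n : Type*} [Fintype n] [DecidableEq n]

attribute [local instance] matRing matAlg matUltra matComplete

/-- The sequence `u m` is `1 + p ^ m U + o(p ^ m)`. -/
def Lim (p : ℕ) (u : ℕ → Matrix n n k) (U : Matrix n n k) : Prop :=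
  Tendsto (fun m => ((p : k) ^ m)⁻¹ • (u m - 1)) atTop (𝓝 U)

theorem Lim.tendsto {p : ℕ} (hp0 : (p : k) ≠ 0) (hp : ‖(p : k)‖ < 1) {u : ℕ → Matrix n n k}
    {U : Matrix n n k} (h : Lim p u U) : Tendsto (fun m => u m - 1) atTop (𝓝 0) := by
  have h1 : Tendsto (fun m : ℕ => (p : k) ^ m) atTop (𝓝 0) :=
    tendsto_pow_atTop_nhds_zero_of_norm_lt_one hp
  have h2 := h1.smul h
  rw [zero_smul] at h2
  refine h2.congr fun m => ?_
  rw [smul_smul, mul_inv_cancel₀ (pow_ne_zero _ hp0), one_smul]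

theorem Lim.mul {p : ℕ} (hp0 : (p : k) ≠ 0) (hp : ‖(p : k)‖ < 1) {u v : ℕ → Matrix n n k}
    {U V : Matrix n n k} (hu : Lim p u U) (hv : Lim p v V) : Lim p (fun m => u m * v m) (U + V) := by
  have h1 : Tendsto (fun m => (((p : k) ^ m)⁻¹ • (u m - 1)) * (v m - 1)) atTop (𝓝 (U * 0)) :=
    Tendsto.mul hu (Lim.tendsto hp0 hp hv)
  have h2 := (Tendsto.add hu hv).add h1
  rw [mul_zero, add_zero] at h2
  refine h2.congr fun m => ?_
  rw [smul_mul_assoc, ← smul_add, ← smul_add]
  congr 1
  noncomm_ring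

theorem Lim.one (p : ℕ) : Lim p (fun _ => (1 : Matrix n n k)) 0 := by
  unfold Lim
  simp only [sub_self, smul_zero]
  exact tendsto_const_nhds

theorem Lim.lg {p : ℕ} (hp0 : (p : k) ≠ 0) (hp : ‖(p : k)‖ < 1) {a : Matrix n n k}
    (ha : ‖a - 1‖ ≤ ‖(p : k)‖ ^ 2) : Lim p (fun m => a ^ p ^ m) (lg k p a) :=
  tendsto_dq (k := k) hp0 hp ha

variable {G : Type*} [Group G] (A : G →* Matrix n n k) (N : Subgroup G)

/-- The limits of sequences in `N`. -/
def lims (p : ℕ) : Set (Matrix n n k) :=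
  {U | ∃ g : ℕ → G, (∀ m, g m ∈ N) ∧ Lim p (fun m => A (g m)) U}

theorem lims_zero (p : ℕ) : (0 : Matrix n n k) ∈ lims A N p := by
  refine ⟨fun _ => 1, fun _ => N.one_mem, ?_⟩
  simp only [map_one]
  exact Lim.one p

theorem lims_add {p : ℕ} (hp0 : (p : k) ≠ 0) (hp : ‖(p : k)‖ < 1) {U V : Matrix n n k}
    (hU : U ∈ lims A N p) (hV : V ∈ lims A N p) : U + V ∈ lims A N p := by
  obtain ⟨g, hg, hgU⟩ := hU
  obtain ⟨h, hh, hhV⟩ := hV
  refine ⟨fun m => g m * h m, fun m => N.mul_mem (hg m) (hh m), ?_⟩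
  simp only [map_mul]
  exact Lim.mul hp0 hp hgU hhV

theorem lims_nsmul {p : ℕ} (hp0 : (p : k) ≠ 0) (hp : ‖(p : k)‖ < 1) {U : Matrix n n k}
    (hU : U ∈ lims A N p) (c : ℕ) : c • U ∈ lims A N p := by
  induction c with
  | zero => rw [zero_smul]; exact lims_zero A N p
  | succ c ih => rw [succ_nsmul]; exact lims_add A N hp0 hp ih hU

theorem lims_sum {p : ℕ} (hp0 : (p : k) ≠ 0) (hp : ‖(p : k)‖ < 1) {ι : Type*} (s : Finset ι)
    (U : ι → Matrix n n k) (hU : ∀ i ∈ s, U i ∈ lims A N p) : ∑ i ∈ s, U i ∈ lims A N p := by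
  classical
  induction s using Finset.induction_on with
  | empty => rw [Finset.sum_empty]; exact lims_zero A N p
  | insert a s ha ih =>
    rw [Finset.sum_insert ha]
    exact lims_add A N hp0 hp (hU a (Finset.mem_insert_self a s))
      (ih fun i hi => hU i (Finset.mem_insert_of_mem hi))

theorem lims_det {p : ℕ} (hp0 : (p : k) ≠ 0) (h0 : ∀ h ∈ N, (A h - 1).det = 0)
    {U : Matrix n n k} (hU : U ∈ lims A N p) : U.det = 0 := by
  obtain ⟨g, hg, hgU⟩ := hU
  have hc : Continuous (fun M : Matrix n n k => M.det) := by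
    have h2 : Continuous (fun M : Matrix n n k => M) := continuous_id
    have h3 : Continuous (fun M : Matrix n n k =>
        MvPolynomial.eval (fun ij : n × n => M ij.1 ij.2) (Matrix.det
          (Matrix.of fun i j : n => (MvPolynomial.X (i, j) : MvPolynomial (n × n) k)))) := by
      exact (differentiable_mvPolynomial (k := k) (n := n) _).continuous
    refine h3.congr fun M => ?_
    rw [RingHom.map_det]
    congr 1
    ext i j
    simp
  have h1 := (hc.tendsto U).comp hgU
  have h2 : ∀ m, (((p : k) ^ m)⁻¹ • (A (g m) - 1)).det = 0 := by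
    intro m
    rw [Matrix.det_smul, h0 _ (hg m), mul_zero]
  refine tendsto_nhds_unique h1 ?_
  refine tendsto_const_nhds.congr fun m => ?_
  exact (h2 m).symm

/-- If no element of `N` is without eigenvalue `1`, the determinant vanishes on the span of every
set of limits. -/
theorem det_span [CharZero k] {p : ℕ} (hp0 : (p : k) ≠ 0) (hp : ‖(p : k)‖ < 1)
    (h0 : ∀ h ∈ N, (A h - 1).det = 0) {S : Set (Matrix n n k)} (hS : S ⊆ lims A N p)
    {x : Matrix n n k} (hx : x ∈ Submodule.span k S) : x.det = 0 := by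
  rw [Submodule.mem_span_iff_exists_finset_subset] at hx
  obtain ⟨f, s, hs, hfs, rfl⟩ := hx
  let P : MvPolynomial s k := Matrix.det (Matrix.of fun i j : n =>
    ∑ a : s, MvPolynomial.X a * MvPolynomial.C ((a : Matrix n n k) i j))
  have hP : ∀ c : s → k, MvPolynomial.eval c P = (∑ a : s, c a • (a : Matrix n n k)).det := by
    intro c
    show MvPolynomial.eval c (Matrix.det _) = _
    rw [RingHom.map_det]
    congr 1
    ext i j
    simp [Matrix.sum_apply]
  have hP0 : P = 0 := by
    apply MvPolynomial.funext_set (s := fun _ => Set.range ((↑) : ℕ → k))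
    · intro i
      exact Set.infinite_range_of_injective Nat.cast_injective
    · intro c hc
      rw [map_zero, hP]
      have h1 : ∀ a : s, ∃ m : ℕ, (m : k) = c a := fun a => hc a (Set.mem_univ a)
      choose m hm using h1
      have h2 : ∑ a : s, c a • (a : Matrix n n k) = ∑ a : s, m a • (a : Matrix n n k) := by
        refine Finset.sum_congr rfl fun a _ => ?_
        rw [← hm a, Nat.cast_smul_eq_nsmul]
      rw [h2]
      apply lims_det A N hp0 h0
      apply lims_sum A N hp0 hp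
      intro a _
      apply lims_nsmul A N hp0 hp
      exact hS (hs a.2)
  have h3 := hP fun a => f a
  rw [hP0, map_zero] at h3
  rw [h3]
  congr 1
  rw [← Finset.sum_coe_sort s]

/-- **If no element of `N` is without eigenvalue `1`, the determinant vanishes on the span of the
logarithms.** -/
theorem det_sp [CharZero k] {p : ℕ} (hp0 : (p : k) ≠ 0) (hp : ‖(p : k)‖ < 1)
    (hN : ∀ h ∈ N, ‖A h - 1‖ ≤ ‖(p : k)‖ ^ 2) (h0 : ∀ h ∈ N, (A h - 1).det = 0)
    {x : Matrix n n k} (hx : x ∈ sp A N p) : x.det = 0 := by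
  refine det_span A N hp0 hp h0 ?_ hx
  rintro a ⟨h, hh, hah⟩
  rw [hah]
  exact ⟨fun m => h ^ p ^ m, fun m => N.pow_mem hh _, by
    simp only [map_pow]
    exact Lim.lg hp0 hp (hN h hh)⟩

end

end Pool.Agent.TDG
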