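import Pool.Agent.Lib_helper61.TD.Gen

/-!
# Tensor products of representations: limits and logarithms
-/

set_option autoImplicit false
set_option linter.unusedSectionVars false

namespace Pool.Agent.TDG

open Filter Topology Matrix Pool.Agent.TBL

section Alg

variable {k : Type*} [Field k] {ι : Type*} [Fintype ι] [DecidableEq ι] {n : ι → Type*}
  [∀ i, Fintype (n i)] [∀ i, DecidableEq (n i)] {G : Type*} [Group G]

/-- The tensor product of matrices. -/
def kmat (B : ∀ i, Matrix (n i) (n i) k) : Matrix (∀ i, n i) (∀ i, n i) k :=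
  Matrix.of fun I J => ∏ i, B i (I i) (J i)

theorem kmat_one : kmat (fun i => (1 : Matrix (n i) (n i) k)) = 1 := by
  ext I J
  rw [kmat, Matrix.of_apply, Matrix.one_apply]
  split_ifs with h
  · subst h
    simp
  · obtain ⟨i, hi⟩ := Function.ne_iff.mp h
    exact Finset.prod_eq_zero (Finset.mem_univ i) (Matrix.one_apply_ne hi)

theorem kmat_mul (B C : ∀ i, Matrix (n i) (n i) k) :
    kmat B * kmat C = kmat (fun i => B i * C i) := by
  ext I J
  rw [kmat, kmat, kmat, Matrix.mul_apply, Matrix.of_apply]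
  simp only [Matrix.of_apply, Matrix.mul_apply]
  rw [Fintype.prod_sum]
  refine Finset.sum_congr rfl fun x _ => ?_
  rw [← Finset.prod_mul_distrib]

theorem kmat_trace (B : ∀ i, Matrix (n i) (n i) k) : (kmat B).trace = ∏ i, (B i).trace := by
  simp only [Matrix.trace, Matrix.diag]
  rw [Fintype.prod_sum]
  rfl

/-- The tensor product of representations. -/
def kron (B : ∀ i, G →* Matrix (n i) (n i) k) : G →* Matrix (∀ i, n i) (∀ i, n i) k where
  toFun g := kmat fun i => B i g
  map_one' := by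
    simp only [map_one]
    exact kmat_one
  map_mul' g h := by
    simp only [map_mul]
    exact (kmat_mul _ _).symm

theorem kron_apply (B : ∀ i, G →* Matrix (n i) (n i) k) (g : G) :
    kron B g = kmat fun i => B i g := rfl

/-- The derivative of the tensor product. -/
def dkmat (U : ∀ i, Matrix (n i) (n i) k) : Matrix (∀ i, n i) (∀ i, n i) k :=
  Matrix.of fun I J => ∑ i, U i (I i) (J i) *
    ∏ i' ∈ Finset.univ.erase i, (1 : Matrix (n i') (n i') k) (I i') (J i')

theorem dkmat_diagonal (y : ∀ i, n i → k) :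
    dkmat (fun i => Matrix.diagonal (y i)) = Matrix.diagonal fun I => ∑ i, y i (I i) := by
  ext I J
  rw [dkmat, Matrix.of_apply]
  by_cases h : I = J
  · subst h
    rw [Matrix.diagonal_apply_eq]
    refine Finset.sum_congr rfl fun i _ => ?_
    rw [Matrix.diagonal_apply_eq, Finset.prod_eq_one, mul_one]
    intro i' _
    exact Matrix.one_apply_eq _
  · rw [Matrix.diagonal_apply_ne _ h]
    refine Finset.sum_eq_zero fun i _ => ?_
    by_cases hi : I i = J i
    · obtain ⟨i', hi'⟩ := Function.ne_iff.mp h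
      have hne : i' ≠ i := fun e => hi' (e ▸ hi)
      have h0 : (1 : Matrix (n i') (n i') k) (I i') (J i') = 0 := Matrix.one_apply_ne hi'
      rw [Finset.prod_eq_zero (Finset.mem_erase.mpr ⟨hne, Finset.mem_univ i'⟩) h0, mul_zero]
    · rw [Matrix.diagonal_apply_ne _ hi, zero_mul]

theorem dkmat_add (U W : ∀ i, Matrix (n i) (n i) k) : dkmat (U + W) = dkmat U + dkmat W := by
  ext I J
  simp only [dkmat, Matrix.of_apply, Matrix.add_apply, Pi.add_apply, add_mul,
    Finset.sum_add_distrib]

theorem dkmat_smul (c : k) (U : ∀ i, Matrix (n i) (n i) k) : dkmat (c • U) = c • dkmat U := by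
  ext I J
  simp only [dkmat, Matrix.of_apply, Matrix.smul_apply, Pi.smul_apply, smul_eq_mul,
    Finset.mul_sum, mul_assoc]

/-- The dual representation, twisted by the power `-N` of the character `χ`. -/
def dualHom {n : Type*} [Fintype n] [DecidableEq n] (N : ℤ) (ρ : G →* Matrix n n k) (χ : G →* k) :
    G →* Matrix n n k where
  toFun g := χ g ^ (-N) • (ρ g⁻¹)ᵀ
  map_one' := by simp
  map_mul' g h := by
    rw [map_mul, mul_zpow, _root_.mul_inv_rev, map_mul, Matrix.transpose_mul,
      smul_mul_smul_comm]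

/-- The twist of a representation by the power `c` of the character `χ`. -/
def twHom {n : Type*} [Fintype n] [DecidableEq n] (c : ℤ) (ρ : G →* Matrix n n k) (χ : G →* k) :
    G →* Matrix n n k where
  toFun g := χ g ^ c • ρ g
  map_one' := by simp
  map_mul' g h := by
    rw [map_mul, mul_zpow, map_mul, smul_mul_smul_comm]

end Alg

section Lim

variable {k : Type*} [NontriviallyNormedField k] [IsUltrametricDist k] [CompleteSpace k]

attribute [local instance] matRing matAlg matUltra matComplete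

/-- The sequence `b` is `d + p ^ m e + o(p ^ m)`. -/
def SLim (p : ℕ) (b : ℕ → k) (d e : k) : Prop :=
  Tendsto (fun m => ((p : k) ^ m)⁻¹ * (b m - d)) atTop (𝓝 e)

theorem SLim.tendsto {p : ℕ} (hp0 : (p : k) ≠ 0) (hp : ‖(p : k)‖ < 1) {b : ℕ → k} {d e : k}
    (h : SLim p b d e) : Tendsto b atTop (𝓝 d) := by
  have h1 : Tendsto (fun m : ℕ => (p : k) ^ m) atTop (𝓝 0) :=
    tendsto_pow_atTop_nhds_zero_of_norm_lt_one hp
  have h2 := (h1.mul h).add_const d
  rw [zero_mul, zero_add] at h2
  refine h2.congr fun m => ?_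
  rw [← mul_assoc, mul_inv_cancel₀ (pow_ne_zero _ hp0), one_mul, sub_add_cancel]

theorem SLim.mul {p : ℕ} (hp0 : (p : k) ≠ 0) (hp : ‖(p : k)‖ < 1) {b b' : ℕ → k} {d d' e e' : k}
    (h : SLim p b d e) (h' : SLim p b' d' e') :
    SLim p (fun m => b m * b' m) (d * d') (e * d' + d * e') := by
  have h1 := (Tendsto.mul h (h'.tendsto hp0 hp)).add (Tendsto.const_mul d h')
  refine Tendsto.congr (fun m => ?_) h1
  ring

theorem SLim.const (p : ℕ) (d : k) : SLim p (fun _ => d) d 0 := by
  unfold SLim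
  simp only [sub_self, mul_zero]
  exact tendsto_const_nhds

theorem SLim.prod {p : ℕ} (hp0 : (p : k) ≠ 0) (hp : ‖(p : k)‖ < 1) {ι : Type*} [DecidableEq ι]
    (s : Finset ι) {b : ι → ℕ → k} {d e : ι → k} (h : ∀ i, SLim p (b i) (d i) (e i)) :
    SLim p (fun m => ∏ i ∈ s, b i m) (∏ i ∈ s, d i) (∑ i ∈ s, e i * ∏ i' ∈ s.erase i, d i') := by
  induction s using Finset.induction_on with
  | empty =>
    simp only [Finset.prod_empty, Finset.sum_empty]
    exact SLim.const p 1
  | insert a s ha ih =>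
    have h1 := (h a).mul hp0 hp ih
    simp only [Finset.prod_insert ha]
    convert h1 using 1
    rw [Finset.sum_insert ha, Finset.erase_insert ha, Finset.mul_sum]
    congr 1
    refine Finset.sum_congr rfl fun i hi => ?_
    have hne : a ≠ i := fun e => ha (e ▸ hi)
    rw [Finset.erase_insert_of_ne hne, Finset.prod_insert (fun h => ha (Finset.mem_of_mem_erase h))]
    ring

theorem Lim.iff {n : Type*} [Fintype n] [DecidableEq n] {p : ℕ} {u : ℕ → Matrix n n k}
    {U : Matrix n n k} : Lim p u U ↔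
      ∀ i j, SLim p (fun m => u m i j) ((1 : Matrix n n k) i j) (U i j) := by
  unfold Lim SLim
  constructor
  · intro h i j
    exact tendsto_pi_nhds.mp (tendsto_pi_nhds.mp h i) j
  · intro h
    refine tendsto_pi_nhds.mpr fun i => tendsto_pi_nhds.mpr fun j => ?_
    exact h i j

theorem Lim.kmat {ι : Type*} [Fintype ι] [DecidableEq ι] {n : ι → Type*}
    [∀ i, Fintype (n i)] [∀ i, DecidableEq (n i)] {p : ℕ} (hp0 : (p : k) ≠ 0)
    (hp : ‖(p : k)‖ < 1) {u : ∀ i, ℕ → Matrix (n i) (n i) k} {U : ∀ i, Matrix (n i) (n i) k}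
    (h : ∀ i, Lim p (u i) (U i)) : Lim p (fun m => TDG.kmat fun i => u i m) (dkmat U) := by
  rw [Lim.iff]
  intro I J
  have h1 := SLim.prod hp0 hp Finset.univ fun i => Lim.iff.mp (h i) (I i) (J i)
  have h2 : ∏ i, (1 : Matrix (n i) (n i) k) (I i) (J i) =
      (1 : Matrix (∀ i, n i) (∀ i, n i) k) I J := by
    rw [← kmat_one]
    rfl
  rw [h2] at h1
  exact h1

theorem Lim.smul {n : Type*} [Fintype n] [DecidableEq n] {p : ℕ} (hp0 : (p : k) ≠ 0)
    (hp : ‖(p : k)‖ < 1) {b : ℕ → k} {e : k} (hb : SLim p b 1 e) {u : ℕ → Matrix n n k}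
    {U : Matrix n n k} (hu : Lim p u U) : Lim p (fun m => b m • u m) (e • 1 + U) := by
  rw [Lim.iff] at hu ⊢
  intro i j
  have h1 := hb.mul hp0 hp (hu i j)
  rw [one_mul, one_mul] at h1
  exact h1

theorem Lim.transpose {n : Type*} [Fintype n] [DecidableEq n] {p : ℕ} {u : ℕ → Matrix n n k}
    {U : Matrix n n k} (hu : Lim p u U) : Lim p (fun m => (u m)ᵀ) Uᵀ := by
  rw [Lim.iff] at hu ⊢
  intro i j
  have h1 := hu j i
  have h2 : (1 : Matrix n n k) i j = (1 : Matrix n n k) j i := by
    rw [Matrix.one_apply, Matrix.one_apply]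
    simp only [eq_comm]
  rw [h2]
  exact h1

theorem Lim.inv {n : Type*} [Fintype n] [DecidableEq n] {p : ℕ} {u v : ℕ → Matrix n n k}
    {U : Matrix n n k} (hu : Lim p u U) (huv : ∀ m, u m * v m = 1)
    (hv : Tendsto v atTop (𝓝 1)) : Lim p v (-U) := by
  have h1 : Tendsto (fun m => -((((p : k) ^ m)⁻¹ • (u m - 1)) * v m)) atTop (𝓝 (-(U * 1))) :=
    (Tendsto.mul hu hv).neg
  rw [mul_one] at h1
  refine Tendsto.congr (fun m => ?_) h1
  rw [smul_mul_assoc, sub_mul, huv m, one_mul, ← smul_neg, neg_sub]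

theorem SLim.iff {p : ℕ} {b : ℕ → k} {e : k} :
    SLim p b 1 e ↔ Tendsto (fun m => ((p : k) ^ m)⁻¹ • (b m - 1)) atTop (𝓝 e) := by
  unfold SLim
  simp only [smul_eq_mul]

end Lim

end Pool.Agent.TDG
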